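import Mathlib

open Set Filter Topology MeasureTheory
open scoped ENNReal NNReal

set_option linter.unusedSectionVars false
set_option linter.unusedVariables false

namespace Pool.Agent.Results.MP_821422_an.LocalDimension

/-- The Tanaka–Ito map `T_α`. -/
noncomputable def T (α x : ℝ) : ℝ := if x = 0 then 0 else 1 / x - ⌊1 / x + 1 - α⌋

/-- Non-empty open intervals contained in `[0,1]`. -/
def IsOpenInterval (J : Set ℝ) : Prop := ∃ u v : ℝ, 0 ≤ u ∧ u < v ∧ v ≤ 1 ∧ J = Ioo u v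

/-- The two properties in the definition of a matching interval with exponents `M, N ≥ 1`. -/
def Matches (J : Set ℝ) (M N : ℕ) : Prop :=
  (∀ α ∈ J, (T α)^[M] (α - 1) = (T α)^[N] α) ∧
    ∀ᵐ α ∂(volume.restrict J), (T α)^[M - 1] (α - 1) ≠ (T α)^[N - 1] α

/-- `J` is a matching interval: it is a non-empty open interval in `[0,1]` which has the two
properties for some exponents `M, N ≥ 1` and is not contained in a strictly larger one. -/
def IsMatchingInterval (J : Set ℝ) : Prop :=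
  ∃ M N : ℕ, 1 ≤ M ∧ 1 ≤ N ∧ IsOpenInterval J ∧ Matches J M N ∧
    ∀ J' : Set ℝ, IsOpenInterval J' → J ⊆ J' → Matches J' M N → J' = J

/-- The bifurcation set. -/
def bifSet : Set ℝ := {α ∈ Icc (0 : ℝ) 1 | ∀ J, IsMatchingInterval J → α ∉ J}

/-- `x` is an isolated point of the bifurcation set. -/
def IsIsolated (x : ℝ) : Prop := ∃ δ > 0, bifSet ∩ Ioo (x - δ) (x + δ) = {x}

/-- The local Hausdorff dimension of the bifurcation set at `x` exists and equals `d`. -/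
def HasLocDim (x : ℝ) (d : ℝ≥0∞) : Prop :=
  Tendsto (fun δ : ℝ => dimH (bifSet ∩ Ioo (x - δ) (x + δ))) (𝓝[>] 0) (𝓝 d)

/-! ### Parameters in an open interval with the matching properties are not in `bifSet` -/

lemma not_mem_bif {J : Set ℝ} {M N : ℕ} (hM : 1 ≤ M) (hN : 1 ≤ N) (hJ : IsOpenInterval J)
    (hm : Matches J M N) {α : ℝ} (hα : α ∈ J) : α ∉ bifSet := by
  intro hb
  set S : Set (Set ℝ) := {J' | IsOpenInterval J' ∧ α ∈ J' ∧ Matches J' M N} with hS
  set U : Set ℝ := ⋃₀ S with hU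
  have hJS : J ∈ S := ⟨hJ, hα, hm⟩
  have hSo : ∀ s ∈ S, IsOpen s := by
    rintro s ⟨⟨u, v, -, -, -, rfl⟩, -⟩; exact isOpen_Ioo
  have hUo : IsOpen U := isOpen_sUnion hSo
  have hUsub : U ⊆ Icc 0 1 := by
    rintro x ⟨s, ⟨⟨u, v, hu, -, hv, rfl⟩, -⟩, hx⟩
    exact ⟨hu.trans hx.1.le, hx.2.le.trans hv⟩
  have hαU : α ∈ U := ⟨J, hJS, hα⟩
  have hUc : U.OrdConnected := by
    refine (isPreconnected_sUnion α S (fun s hs => hs.2.1) ?_).ordConnected
    rintro s ⟨⟨u, v, -, -, -, rfl⟩, -⟩; exact isPreconnected_Ioo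
  have hbb : BddBelow U := ⟨0, fun x hx => (hUsub hx).1⟩
  have hba : BddAbove U := ⟨1, fun x hx => (hUsub hx).2⟩
  have hne : U.Nonempty := ⟨α, hαU⟩
  have hUeq : U = Ioo (sInf U) (sSup U) := by
    apply Subset.antisymm
    · intro x hx
      obtain ⟨ε, hε, hb⟩ := Metric.isOpen_iff.1 hUo x hx
      rw [Real.ball_eq_Ioo] at hb
      constructor
      · have : x - ε / 2 ∈ U := hb ⟨by linarith, by linarith⟩
        have := csInf_le hbb this
        linarith
      · have : x + ε / 2 ∈ U := hb ⟨by linarith, by linarith⟩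
        have := le_csSup hba this
        linarith
    · intro x hx
      obtain ⟨y, hy, hyx⟩ := exists_lt_of_csInf_lt hne hx.1
      obtain ⟨z, hz, hxz⟩ := exists_lt_of_lt_csSup hne hx.2
      exact hUc.out hy hz ⟨hyx.le, hxz.le⟩
  have hUint : IsOpenInterval U := by
    refine ⟨sInf U, sSup U, ?_, ?_, ?_, hUeq⟩
    · exact le_csInf hne fun x hx => (hUsub hx).1
    · have := hUeq ▸ hαU
      exact this.1.trans this.2
    · exact csSup_le hne fun x hx => (hUsub hx).2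
  have hUm : Matches U M N := by
    constructor
    · rintro x ⟨s, hs, hx⟩
      exact hs.2.2.1 x hx
    · obtain ⟨C, hCc, hCS, hCU⟩ := TopologicalSpace.isOpen_sUnion_countable S hSo
      rw [hU, ← hCU, sUnion_eq_biUnion, ae_restrict_biUnion_iff _ hCc]
      intro s hs
      exact (hCS hs).2.2.2
  refine hb.2 U ⟨M, N, hM, hN, hUint, hUm, ?_⟩ hαU
  intro J' hJ' hsub hm'
  exact Subset.antisymm (subset_sUnion_of_mem (show J' ∈ S from ⟨hJ', hsub hαU, hm'⟩)) hsub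

lemma mem_bif {α : ℝ} (hα : α ∈ Icc (0 : ℝ) 1)
    (h : ∀ M N : ℕ, (T α)^[M] (α - 1) ≠ (T α)^[N] α) : α ∈ bifSet := by
  refine ⟨hα, ?_⟩
  rintro J ⟨M, N, -, -, -, hm, -⟩ hJ
  exact h M N (hm.1 α hJ)

/-! ### One-step computations -/

/-- inverse of the first branch -/
noncomputable def G4 (w : ℝ) : ℝ := 4 - 1 / w
/-- inverse of the second branch -/
noncomputable def G3 (w : ℝ) : ℝ := (2 - 7 * w) / (1 - 3 * w)

lemma T_eq {α x : ℝ} (hx : x ≠ 0) (n : ℤ) (h1 : (n : ℝ) ≤ 1 / x + 1 - α)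
    (h2 : 1 / x + 1 - α < n + 1) : T α x = 1 / x - n := by
  have : ⌊1 / x + 1 - α⌋ = n := Int.floor_eq_iff.2 ⟨h1, h2⟩
  rw [T, if_neg hx, this]

section steps

variable {β w : ℝ} (hβ1 : 7 / 10 < β) (hβ2 : β < 3 / 4) (hw1 : 1 / 4 < w) (hw2 : w < 2 / 7)

include hw1 hw2 in
lemma y_bounds : 1 / 2 < 1 / w - 3 ∧ 1 / w - 3 < 1 := by
  have hw : 0 < w := by linarith
  constructor
  · have : 7 / 2 < 1 / w := by
      rw [lt_div_iff₀ hw]; linarith
    linarith
  · have : 1 / w < 4 := by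
      rw [div_lt_iff₀ hw]; linarith
    linarith

include hβ1 hβ2 hw1 hw2 in
/-- `T(-w) = 1 - y` -/
lemma T_neg : T β (-w) = G4 w := by
  obtain ⟨hy1, hy2⟩ := y_bounds hw1 hw2
  have h : (1 : ℝ) / (-w) = -(1 / w) := by rw [one_div_neg_eq_neg_one_div]
  rw [T_eq (by linarith) (-4) (by push_cast; rw [h]; linarith) (by push_cast; rw [h]; linarith),
    h, G4]
  push_cast; ring

include hβ1 hβ2 hw1 hw2 in
lemma T_pos4 (h4 : G4 w ≤ 1 - β) : T β w = -G4 w := by
  obtain ⟨hy1, hy2⟩ := y_bounds hw1 hw2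
  unfold G4 at h4
  rw [T_eq (by linarith) 4 (by push_cast; linarith) (by push_cast; linarith), G4]
  push_cast; ring

include hw1 in
lemma inv_P : 1 / (w / (1 - w)) = 1 / w - 1 := by
  have : w ≠ 0 := by linarith
  rw [one_div_div, sub_div, div_self this]

include hβ1 hβ2 hw1 hw2 in
lemma T_pos4' (h4 : G4 w ≤ 1 - β) : T β (w / (1 - w)) = -G4 w := by
  obtain ⟨hy1, hy2⟩ := y_bounds hw1 hw2
  unfold G4 at h4
  have h0 : w / (1 - w) ≠ 0 := div_ne_zero (by linarith) (by linarith)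
  rw [T_eq h0 3 (by rw [inv_P hw1]; push_cast; linarith) (by rw [inv_P hw1]; push_cast; linarith),
    G4, inv_P hw1]
  push_cast; ring

include hβ1 hβ2 hw1 hw2 in
lemma T_pos3 (h4 : 1 - β < G4 w) : T β w = 1 / w - 3 := by
  obtain ⟨hy1, hy2⟩ := y_bounds hw1 hw2
  unfold G4 at h4
  rw [T_eq (by linarith) 3 (by push_cast; linarith) (by push_cast; linarith)]
  push_cast; ring

include hβ1 hβ2 hw1 hw2 in
lemma T_pos3' (h4 : 1 - β < G4 w) : T β (w / (1 - w)) = 1 / w - 3 := by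
  obtain ⟨hy1, hy2⟩ := y_bounds hw1 hw2
  unfold G4 at h4
  have h0 : w / (1 - w) ≠ 0 := div_ne_zero (by linarith) (by linarith)
  rw [T_eq h0 2 (by rw [inv_P hw1]; push_cast; linarith) (by rw [inv_P hw1]; push_cast; linarith),
    inv_P hw1]
  push_cast; ring

include hw1 hw2 in
lemma G3_eq : G3 w = 2 - 1 / (1 / w - 3) := by
  have h1 : w ≠ 0 := by linarith
  have h2 : 1 - 3 * w ≠ 0 := by
    have : 0 < 1 - 3 * w := by linarith
    exact this.ne'
  have h3 : 1 / w - 3 = (1 - 3 * w) / w := by field_simp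
  rw [h3, G3, one_div_div, eq_sub_iff_add_eq, ← add_div, div_eq_iff h2]
  ring

include hβ1 hβ2 hw1 hw2 in
/-- second iterate of the positive side, no exit -/
lemma T_y (h4 : 1 - β < G4 w) (h3 : G3 w ≤ 1 - β) : T β (1 / w - 3) = -G3 w := by
  obtain ⟨hy1, hy2⟩ := y_bounds hw1 hw2
  have hG := G3_eq hw1 hw2
  rw [hG] at h3 ⊢
  unfold G4 at h4
  set y := 1 / w - 3 with hy
  have hy0 : 0 < y := by linarith
  have h5 : 1 / y < 2 := by rw [div_lt_iff₀ hy0]; linarith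
  rw [T_eq hy0.ne' 2 (by push_cast; linarith) (by push_cast; linarith)]
  push_cast; ring

include hβ1 hβ2 hw1 hw2 in
lemma T_1y (h4 : 1 - β < G4 w) (h3 : G3 w ≤ 1 - β) : T β (G4 w) = G3 w / (1 - G3 w) := by
  obtain ⟨hy1, hy2⟩ := y_bounds hw1 hw2
  have hG := G3_eq hw1 hw2
  have hG4 : G4 w = 1 - (1 / w - 3) := by unfold G4; ring
  rw [hG] at h3 ⊢
  rw [hG4] at h4 ⊢
  set y := 1 / w - 3 with hy
  have hy0 : 0 < y := by linarith
  have h1y : 0 < 1 - y := by linarith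
  have h5 : 1 + β ≤ 1 / y := by linarith
  rw [le_div_iff₀ hy0] at h5
  have h6 : 2 ≤ 1 / (1 - y) := by rw [le_div_iff₀ h1y]; linarith
  have h7 : 1 / (1 - y) < 2 + β := by
    rw [div_lt_iff₀ h1y]
    nlinarith
  rw [T_eq h1y.ne' 2 (by push_cast; linarith) (by push_cast; linarith)]
  have h8 : 1 - (2 - 1 / y) = (1 - y) / y := by field_simp; ring
  rw [h8]
  push_cast
  field_simp
  ring

include hβ1 hβ2 hw1 hw2 in
/-- exit -/
lemma T_exit (h4 : 1 - β < G4 w) (h3 : 1 - β < G3 w) :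
    T β (T β (1 / w - 3)) = T β (G4 w) ∧ T β (1 / w - 3) ≠ G4 w := by
  obtain ⟨hy1, hy2⟩ := y_bounds hw1 hw2
  have hG := G3_eq hw1 hw2
  have hG4 : G4 w = 1 - (1 / w - 3) := by unfold G4; ring
  rw [hG] at h3
  rw [hG4] at h4 ⊢
  set y := 1 / w - 3 with hy
  have hy0 : 0 < y := by linarith
  have h1y : 0 < 1 - y := by linarith
  have h5 : 1 < 1 / y := by rw [lt_div_iff₀ hy0]; linarith
  have h6 : T β y = 1 / y - 1 := by
    rw [T_eq hy0.ne' 1 (by push_cast; linarith) (by push_cast; linarith)]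
    push_cast; ring
  have h7 : 1 / y - 1 = (1 - y) / y := by field_simp
  constructor
  · rw [h6, h7]
    have h8 : 1 / ((1 - y) / y) = 1 / (1 - y) - 1 := by field_simp; ring
    have h9 : (1 - y) / y ≠ 0 := by positivity
    rw [T, T, if_neg h9, if_neg h1y.ne', h8]
    have h10 : (1 / (1 - y) - 1 + 1 - β : ℝ) = (1 / (1 - y) + 1 - β) - (1 : ℤ) := by
      push_cast; ring
    rw [h10, Int.floor_sub_intCast]
    push_cast; ring
  · rw [h6, h7]
    intro h
    have : (1 - y) / y > 1 - y := by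
      rw [gt_iff_lt, lt_div_iff₀ hy0]; nlinarith
    linarith

end steps


/-! ### Aligned pairs -/

/-- `x = -w` and `z ∈ {w, w/(1-w)}` -/
def Pr (w x z : ℝ) : Prop := x = -w ∧ (z = w ∨ z = w / (1 - w))

section Pr
variable {β w : ℝ} (hβ1 : 7 / 10 < β) (hβ2 : β < 3 / 4) (hw1 : 1 / 4 < w) (hw2 : w < 2 / 7)
  {x z : ℝ} (h : Pr w x z)

include hβ1 hβ2 hw1 hw2 h in
lemma Pr_step4 (h4 : G4 w ≤ 1 - β) : Pr (G4 w) (T β z) (T β x) := by
  obtain ⟨rfl, rfl | rfl⟩ := h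
  · exact ⟨T_pos4 hβ1 hβ2 hw1 hw2 h4, Or.inl (T_neg hβ1 hβ2 hw1 hw2)⟩
  · exact ⟨T_pos4' hβ1 hβ2 hw1 hw2 h4, Or.inl (T_neg hβ1 hβ2 hw1 hw2)⟩

include hβ1 hβ2 hw1 hw2 h in
lemma Pr_mid (h4 : 1 - β < G4 w) : T β z = 1 / w - 3 ∧ T β x = G4 w := by
  obtain ⟨rfl, rfl | rfl⟩ := h
  · exact ⟨T_pos3 hβ1 hβ2 hw1 hw2 h4, T_neg hβ1 hβ2 hw1 hw2⟩
  · exact ⟨T_pos3' hβ1 hβ2 hw1 hw2 h4, T_neg hβ1 hβ2 hw1 hw2⟩

include hβ1 hβ2 hw1 hw2 h in
lemma Pr_step3 (h4 : 1 - β < G4 w) (h3 : G3 w ≤ 1 - β) :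
    Pr (G3 w) (T β (T β z)) (T β (T β x)) ∧ 0 < T β z ∧ 0 < T β x := by
  obtain ⟨h1, h2⟩ := Pr_mid hβ1 hβ2 hw1 hw2 h h4
  rw [h1, h2]
  exact ⟨⟨T_y hβ1 hβ2 hw1 hw2 h4 h3, Or.inr (T_1y hβ1 hβ2 hw1 hw2 h4 h3)⟩,
    by linarith [(y_bounds hw1 hw2).1], by linarith⟩

include hβ1 hβ2 hw1 hw2 h in
lemma Pr_exit (h4 : 1 - β < G4 w) (h3 : 1 - β < G3 w) :
    T β (T β (T β z)) = T β (T β x) ∧ T β (T β z) ≠ T β x := by
  obtain ⟨h1, h2⟩ := Pr_mid hβ1 hβ2 hw1 hw2 h h4
  rw [h1, h2]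
  exact T_exit hβ1 hβ2 hw1 hw2 h4 h3

end Pr

/-- the orbit of `β - 1` -/
noncomputable def u (β : ℝ) (i : ℕ) : ℝ := (T β)^[i] (β - 1)
/-- the orbit of `β`, shifted -/
noncomputable def v (β : ℝ) (i : ℕ) : ℝ := (T β)^[i + 1] β

lemma u_succ (β : ℝ) (i : ℕ) : u β (i + 1) = T β (u β i) := Function.iterate_succ_apply' _ _ _
lemma v_succ (β : ℝ) (i : ℕ) : v β (i + 1) = T β (v β i) := Function.iterate_succ_apply' _ _ _

/-- state of the pair of orbits -/
def St (β : ℝ) (b : Bool) (i : ℕ) (w : ℝ) : Prop :=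
  match b with
  | true => Pr w (u β i) (v β i)
  | false => Pr w (v β i) (u β i)

lemma St_zero {β : ℝ} (hβ1 : 7 / 10 < β) (hβ2 : β < 3 / 4) : St β true 0 (1 - β) := by
  have hβ0 : 0 < β := by linarith
  refine ⟨by simp [u], Or.inr ?_⟩
  have h1 : 1 < 1 / β := by rw [lt_div_iff₀ hβ0]; linarith
  have h2 : 1 / β < 3 / 2 := by rw [div_lt_iff₀ hβ0]; linarith
  simp only [v, zero_add, Function.iterate_one]
  rw [T_eq hβ0.ne' 1 (by push_cast; linarith) (by push_cast; linarith)]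
  have h3 : 1 - (1 - β) = β := by ring
  rw [h3, sub_div, div_self hβ0.ne']
  push_cast
  ring

section St
variable {β w : ℝ} (hβ1 : 7 / 10 < β) (hβ2 : β < 3 / 4) (hw1 : 1 / 4 < w) (hw2 : w < 2 / 7)
  {b : Bool} {i : ℕ} (h : St β b i w)

include hβ1 hβ2 hw1 hw2 h in
lemma St_step4 (h4 : G4 w ≤ 1 - β) : St β (!b) (i + 1) (G4 w) := by
  cases b
  · have := Pr_step4 hβ1 hβ2 hw1 hw2 h h4
    simpa [St, u_succ, v_succ] using this
  · have := Pr_step4 hβ1 hβ2 hw1 hw2 h h4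
    simpa [St, u_succ, v_succ] using this

include hβ1 hβ2 hw1 hw2 h in
lemma St_step3 (h4 : 1 - β < G4 w) (h3 : G3 w ≤ 1 - β) :
    St β (!b) (i + 2) (G3 w) ∧ 0 < u β (i + 1) ∧ 0 < v β (i + 1) := by
  cases b
  · have := Pr_step3 hβ1 hβ2 hw1 hw2 h h4 h3
    simp only [St, u_succ, v_succ, Bool.not_false]
    exact ⟨this.1, this.2.1, this.2.2⟩
  · have := Pr_step3 hβ1 hβ2 hw1 hw2 h h4 h3
    simp only [St, u_succ, v_succ, Bool.not_true]
    exact ⟨this.1, this.2.2, this.2.1⟩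

include hβ1 hβ2 hw1 hw2 h in
lemma St_exit_true (hb : b = true) (h4 : 1 - β < G4 w) (h3 : 1 - β < G3 w) :
    (T β)^[i + 2] (β - 1) = (T β)^[i + 4] β ∧ (T β)^[i + 1] (β - 1) ≠ (T β)^[i + 3] β := by
  subst hb
  have := Pr_exit hβ1 hβ2 hw1 hw2 h h4 h3
  rw [← v_succ, ← v_succ, ← v_succ, ← u_succ, ← u_succ] at this
  exact ⟨this.1.symm, this.2.symm⟩

include hβ1 hβ2 hw1 hw2 h in
lemma St_exit_false (hb : b = false) (h4 : 1 - β < G4 w) (h3 : 1 - β < G3 w) :
    (T β)^[i + 3] (β - 1) = (T β)^[i + 3] β ∧ (T β)^[i + 2] (β - 1) ≠ (T β)^[i + 2] β := by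
  subst hb
  have := Pr_exit hβ1 hβ2 hw1 hw2 h h4 h3
  rw [← u_succ, ← u_succ, ← u_succ, ← v_succ, ← v_succ] at this
  exact ⟨this.1, this.2⟩

end St

/-! ### Exit implies matching near the parameter -/

/-- the step map for the parameter `1 - a` -/
noncomputable def S (a w : ℝ) : ℝ := if G4 w ≤ a then G4 w else G3 w

lemma continuousAt_G4 {w : ℝ} (hw1 : 1 / 4 < w) : ContinuousAt G4 w := by
  unfold G4
  have : w ≠ 0 := by linarith
  fun_prop (disch := assumption)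

lemma continuousAt_G3 {w : ℝ} (hw2 : w < 2 / 7) : ContinuousAt G3 w := by
  unfold G3
  have : 1 - 3 * w ≠ 0 := by
    have : 0 < 1 - 3 * w := by linarith
    exact this.ne'
  fun_prop (disch := assumption)

lemma exists_state {α : ℝ} (h1 : 5 / 7 < α) (h2 : α < 3 / 4) (n : ℕ)
    (hw1 : ∀ k ≤ n, 1 / 4 < (S (1 - α))^[k] (1 - α))
    (hw2 : ∀ k ≤ n, (S (1 - α))^[k] (1 - α) < 2 / 7)
    (hw3 : ∀ k ≤ n, 1 ≤ k → (S (1 - α))^[k] (1 - α) < 1 - α) :
    ∃ (b : Bool) (i : ℕ) (W : ℝ → ℝ), ContinuousAt W α ∧ W α = (S (1 - α))^[n] (1 - α) ∧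
      ∀ᶠ β in 𝓝 α, St β b i (W β) := by
  have hev1 : ∀ᶠ β in 𝓝 α, 7 / 10 < β := lt_mem_nhds (by linarith)
  have hev2 : ∀ᶠ β in 𝓝 α, β < 3 / 4 := gt_mem_nhds h2
  induction n with
  | zero =>
    refine ⟨true, 0, fun β => 1 - β, by fun_prop, by simp, ?_⟩
    filter_upwards [hev1, hev2] with β hβ1 hβ2
    exact St_zero hβ1 hβ2
  | succ n ih =>
    obtain ⟨b, i, W, hWc, hWα, hW⟩ := ih (fun k hk => hw1 k (by omega))
      (fun k hk => hw2 k (by omega)) (fun k hk => hw3 k (by omega))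
    have hn1 := hw1 n (by omega)
    have hn2 := hw2 n (by omega)
    have hn3 := hw3 (n + 1) le_rfl (by omega)
    rw [Function.iterate_succ_apply'] at hn3 ⊢
    rw [← hWα] at hn1 hn2 hn3 ⊢
    have hWe1 : ∀ᶠ β in 𝓝 α, 1 / 4 < W β := hWc.eventually (lt_mem_nhds hn1)
    have hWe2 : ∀ᶠ β in 𝓝 α, W β < 2 / 7 := hWc.eventually (gt_mem_nhds hn2)
    have hc4 : ContinuousAt (fun β => G4 (W β)) α := (continuousAt_G4 hn1).comp hWc
    have hc3 : ContinuousAt (fun β => G3 (W β)) α := (continuousAt_G3 hn2).comp hWc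
    have hc1 : ContinuousAt (fun β : ℝ => 1 - β) α := by fun_prop
    by_cases h4 : G4 (W α) ≤ 1 - α
    · rw [S, if_pos h4] at hn3 ⊢
      refine ⟨!b, i + 1, fun β => G4 (W β), hc4, rfl, ?_⟩
      have he : ∀ᶠ β in 𝓝 α, G4 (W β) < 1 - β := hc4.eventually_lt hc1 hn3
      filter_upwards [hev1, hev2, hWe1, hWe2, he, hW] with β a1 a2 a3 a4 a5 a6
      exact St_step4 a1 a2 a3 a4 a6 a5.le
    · rw [S, if_neg h4] at hn3 ⊢
      push Not at h4
      refine ⟨!b, i + 2, fun β => G3 (W β), hc3, rfl, ?_⟩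
      have he : ∀ᶠ β in 𝓝 α, G3 (W β) < 1 - β := hc3.eventually_lt hc1 hn3
      have he' : ∀ᶠ β in 𝓝 α, 1 - β < G4 (W β) := hc1.eventually_lt hc4 h4
      filter_upwards [hev1, hev2, hWe1, hWe2, he, he', hW] with β a1 a2 a3 a4 a5 a5' a6
      exact (St_step3 a1 a2 a3 a4 a6 a5' a5.le).1

lemma exit_not_mem {α : ℝ} (h1 : 5 / 7 < α) (h2 : α < 3 / 4) (n : ℕ)
    (hw1 : ∀ k ≤ n, 1 / 4 < (S (1 - α))^[k] (1 - α))
    (hw2 : ∀ k ≤ n, (S (1 - α))^[k] (1 - α) < 2 / 7)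
    (hw3 : ∀ k ≤ n, 1 ≤ k → (S (1 - α))^[k] (1 - α) < 1 - α)
    (he4 : 1 - α < G4 ((S (1 - α))^[n] (1 - α)))
    (he3 : 1 - α < G3 ((S (1 - α))^[n] (1 - α))) : α ∉ bifSet := by
  obtain ⟨b, i, W, hWc, hWα, hW⟩ := exists_state h1 h2 n hw1 hw2 hw3
  have hn1 := hw1 n le_rfl
  have hn2 := hw2 n le_rfl
  rw [← hWα] at he4 he3 hn1 hn2
  have hev1 : ∀ᶠ β in 𝓝 α, 7 / 10 < β := lt_mem_nhds (by linarith)
  have hev2 : ∀ᶠ β in 𝓝 α, β < 3 / 4 := gt_mem_nhds h2
  have hWe1 : ∀ᶠ β in 𝓝 α, 1 / 4 < W β := hWc.eventually (lt_mem_nhds hn1)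
  have hWe2 : ∀ᶠ β in 𝓝 α, W β < 2 / 7 := hWc.eventually (gt_mem_nhds hn2)
  have hc4 : ContinuousAt (fun β => G4 (W β)) α := (continuousAt_G4 hn1).comp hWc
  have hc3 : ContinuousAt (fun β => G3 (W β)) α := (continuousAt_G3 hn2).comp hWc
  have hc1 : ContinuousAt (fun β : ℝ => 1 - β) α := by fun_prop
  have e4 : ∀ᶠ β in 𝓝 α, 1 - β < G4 (W β) := hc1.eventually_lt hc4 he4
  have e3 : ∀ᶠ β in 𝓝 α, 1 - β < G3 (W β) := hc1.eventually_lt hc3 he3
  obtain ⟨ε, hε, hb⟩ := Metric.eventually_nhds_iff_ball.1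
    (hev1.and (hev2.and (hWe1.and (hWe2.and (e4.and (e3.and hW))))))
  rw [Real.ball_eq_Ioo] at hb
  have hJ : IsOpenInterval (Ioo (α - min ε (1 / 100)) (α + min ε (1 / 100))) := by
    have hm : 0 < min ε (1 / 100) := by positivity
    have hm' : min ε (1 / 100) ≤ 1 / 100 := min_le_right _ _
    exact ⟨_, _, by linarith, by linarith, by linarith, rfl⟩
  have hαJ : α ∈ Ioo (α - min ε (1 / 100)) (α + min ε (1 / 100)) := by
    have hm : 0 < min ε (1 / 100) := by positivity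
    exact ⟨by linarith, by linarith⟩
  have hsub : ∀ β ∈ Ioo (α - min ε (1 / 100)) (α + min ε (1 / 100)),
      β ∈ Ioo (α - ε) (α + ε) := by
    intro β hβ
    have hm' : min ε (1 / 100) ≤ ε := min_le_left _ _
    exact ⟨by linarith [hβ.1], by linarith [hβ.2]⟩
  cases hbb : b with
  | true =>
    have key : ∀ β ∈ Ioo (α - min ε (1 / 100)) (α + min ε (1 / 100)),
        (T β)^[i + 2] (β - 1) = (T β)^[i + 4] β ∧
          (T β)^[i + 1] (β - 1) ≠ (T β)^[i + 3] β := by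
      intro β hβ
      obtain ⟨a1, a2, a3, a4, a5, a6, a7⟩ := hb β (hsub β hβ)
      exact St_exit_true a1 a2 a3 a4 a7 hbb a5 a6
    exact not_mem_bif (M := i + 2) (N := i + 4) (by omega) (by omega) hJ
      ⟨fun β hβ => (key β hβ).1, ae_restrict_of_forall_mem measurableSet_Ioo
        fun β hβ => (key β hβ).2⟩ hαJ
  | false =>
    have key : ∀ β ∈ Ioo (α - min ε (1 / 100)) (α + min ε (1 / 100)),
        (T β)^[i + 3] (β - 1) = (T β)^[i + 3] β ∧
          (T β)^[i + 2] (β - 1) ≠ (T β)^[i + 2] β := by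
      intro β hβ
      obtain ⟨a1, a2, a3, a4, a5, a6, a7⟩ := hb β (hsub β hβ)
      exact St_exit_false a1 a2 a3 a4 a7 hbb a5 a6
    exact not_mem_bif (M := i + 3) (N := i + 3) (by omega) (by omega) hJ
      ⟨fun β hβ => (key β hβ).1, ae_restrict_of_forall_mem measurableSet_Ioo
        fun β hβ => (key β hβ).2⟩ hαJ


/-! ### The window -/

/-- left end of the window for `a = 1 - α` -/
noncomputable def p : ℝ := 2 - √3

lemma p_sq : p ^ 2 = 4 * p - 1 := by
  unfold p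
  have : √3 ^ 2 = 3 := Real.sq_sqrt (by norm_num)
  nlinarith

lemma p_lb : 0.2679 < p := by
  unfold p
  have : √3 < 1.7321 := by
    rw [Real.sqrt_lt' (by norm_num)]; norm_num
  norm_num at this ⊢
  linarith

lemma p_ub : p < 0.26795 := by
  unfold p
  have : 1.73205 < √3 := by
    rw [Real.lt_sqrt (by norm_num)]; norm_num
  norm_num at this ⊢
  linarith

/-- first branch -/
noncomputable def f4 (x : ℝ) : ℝ := 1 / (4 - x)
/-- second branch -/
noncomputable def f3 (x : ℝ) : ℝ := (2 - x) / (7 - 3 * x)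

/-- right end of the window for `a = 1 - α` -/
noncomputable def t : ℝ := f3 p

lemma f4_sub (x y : ℝ) (hx : x < 1) (hy : y < 1) :
    f4 x - f4 y = (x - y) / ((4 - x) * (4 - y)) := by
  unfold f4
  have h1 : 4 - x ≠ 0 := by linarith
  have h2 : 4 - y ≠ 0 := by linarith
  field_simp
  ring

lemma f3_sub (x y : ℝ) (hx : x < 1) (hy : y < 1) :
    f3 x - f3 y = -((x - y) / ((7 - 3 * x) * (7 - 3 * y))) := by
  unfold f3
  have h1 : 7 - 3 * x ≠ 0 := by
    have : 0 < 7 - 3 * x := by linarith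
    exact this.ne'
  have h2 : 7 - 3 * y ≠ 0 := by
    have : 0 < 7 - 3 * y := by linarith
    exact this.ne'
  rw [div_sub_div _ _ h1 h2, ← neg_div]
  congr 1
  ring

lemma f4_strictMono {x y : ℝ} (hxy : x < y) (hy : y < 1) : f4 x < f4 y := by
  have := f4_sub x y (by linarith) hy
  have h2 : (x - y) / ((4 - x) * (4 - y)) < 0 :=
    div_neg_of_neg_of_pos (by linarith) (mul_pos (by linarith) (by linarith))
  linarith

lemma f3_strictAnti {x y : ℝ} (hxy : x < y) (hy : y < 1) : f3 y < f3 x := by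
  have := f3_sub x y (by linarith) hy
  have h2 : (x - y) / ((7 - 3 * x) * (7 - 3 * y)) < 0 :=
    div_neg_of_neg_of_pos (by linarith) (mul_pos (by linarith) (by linarith))
  linarith

lemma t_eq : t = (2 - p) / (7 - 3 * p) := rfl

lemma t_lb : 0.2795 < t := by
  have h1 := p_lb
  have h2 := p_ub
  rw [t_eq, lt_div_iff₀ (by linarith)]
  linarith

lemma t_ub : t < 0.27954 := by
  have h1 := p_lb
  have h2 := p_ub
  rw [t_eq, div_lt_iff₀ (by linarith)]
  linarith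

lemma f4_G4 {w : ℝ} (hw : w ≠ 0) : f4 (G4 w) = w := by
  unfold f4 G4
  have : 4 - (4 - 1 / w) = 1 / w := by ring
  rw [this, one_div_one_div]

lemma f3_G3 {w : ℝ} (hw : w < 2 / 7) : f3 (G3 w) = w := by
  unfold f3 G3
  have h2 : 0 < 1 - 3 * w := by linarith
  have h3 : 7 - 3 * ((2 - 7 * w) / (1 - 3 * w)) = 1 / (1 - 3 * w) := by
    field_simp
    ring
  have h4 : 2 - (2 - 7 * w) / (1 - 3 * w) = w / (1 - 3 * w) := by
    rw [sub_eq_iff_eq_add, ← add_div, eq_div_iff h2.ne']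
    ring
  rw [h3, h4, div_div_div_cancel_right₀ h2.ne', div_one]

lemma G4_f4 {x : ℝ} (hx : x < 1) : G4 (f4 x) = x := by
  unfold f4 G4
  rw [one_div_one_div]; ring

lemma G3_f3 {x : ℝ} (hx : x < 1) : G3 (f3 x) = x := by
  unfold f3 G3
  have h2 : 0 < 7 - 3 * x := by linarith
  have h3 : 1 - 3 * ((2 - x) / (7 - 3 * x)) = 1 / (7 - 3 * x) := by
    field_simp
    ring
  have h4 : 2 - 7 * ((2 - x) / (7 - 3 * x)) = x / (7 - 3 * x) := by
    rw [sub_eq_iff_eq_add, mul_div_assoc', ← add_div, eq_div_iff h2.ne']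
    ring
  rw [h3, h4, div_div_div_cancel_right₀ h2.ne', div_one]

lemma p_le_G4 {w : ℝ} (hw : p ≤ w) : p ≤ G4 w := by
  have h1 := p_lb
  have hw0 : 0 < w := by linarith
  unfold G4
  have h3 : 1 / w ≤ 1 / p := one_div_le_one_div_of_le (by linarith) hw
  have h4 : 1 / p = 4 - p := by
    rw [div_eq_iff (by linarith)]
    nlinarith [p_sq]
  linarith

lemma p_le_G3 {w : ℝ} (hw0 : 1 / 4 < w) (hw : w ≤ t) : p ≤ G3 w := by
  have h1 := p_lb
  have h2 := p_ub
  have h3 := t_ub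
  by_contra hlt
  push Not at hlt
  have h4 : w < 2 / 7 := by linarith
  have h5 : f3 p < f3 (G3 w) := f3_strictAnti hlt (by linarith)
  rw [f3_G3 h4] at h5
  unfold t at hw
  linarith

/-- points of `bifSet` in the window never exit -/
lemma orbit_mem {α : ℝ} (hα : α ∈ bifSet) (h1 : p < 1 - α) (h2 : 1 - α < t) (n : ℕ) :
    (S (1 - α))^[n] (1 - α) ∈ Icc p (1 - α) := by
  have b1 := p_lb
  have b2 := p_ub
  have b3 := t_lb
  have b4 := t_ub
  induction n using Nat.strong_induction_on with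
  | _ n ih =>
    rcases n with _ | n
    · exact ⟨h1.le, le_rfl⟩
    · have ihn := ih n (by omega)
      rw [Function.iterate_succ_apply']
      set w := (S (1 - α))^[n] (1 - α) with hw
      constructor
      · unfold S
        split_ifs
        · exact p_le_G4 ihn.1
        · exact p_le_G3 (by linarith [ihn.1]) (by linarith [ihn.2])
      · by_contra hlt
        push Not at hlt
        have h4 : 1 - α < G4 w := by
          by_contra h
          push Not at h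
          rw [S, if_pos h] at hlt
          linarith
        have h3 : 1 - α < G3 w := by
          rwa [S, if_neg (not_le.2 h4)] at hlt
        refine exit_not_mem (α := α) (by linarith) (by linarith) n ?_ ?_ ?_ h4 h3 hα
        · intro k hk
          linarith [(ih k (by omega)).1]
        · intro k hk
          linarith [(ih k (by omega)).2]
        · intro k hk hk1
          refine lt_of_le_of_ne (ih k (by omega)).2 ?_
          intro heq
          have h5 : (S (1 - α))^[n + 1] (1 - α) = (S (1 - α))^[n + 1 - k] (1 - α) := by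
            conv_lhs => rw [show n + 1 = (n + 1 - k) + k by omega, Function.iterate_add_apply, heq]
          have h6 := (ih (n + 1 - k) (by omega)).2
          rw [← h5, Function.iterate_succ_apply', ← hw] at h6
          linarith

/-! ### The covering -/

/-- compositions of branches -/
noncomputable def F : List Bool → ℝ → ℝ
  | [], x => x
  | true :: l, x => f4 (F l x)
  | false :: l, x => f3 (F l x)

lemma f4_mem {x : ℝ} (hx : x ∈ Icc (1 / 4 : ℝ) (2 / 7)) : f4 x ∈ Icc (1 / 4 : ℝ) (2 / 7) := by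
  obtain ⟨h1, h2⟩ := hx
  unfold f4
  constructor
  · rw [le_div_iff₀ (by linarith)]; linarith
  · rw [div_le_iff₀ (by linarith)]; linarith

lemma f3_mem {x : ℝ} (hx : x ∈ Icc (1 / 4 : ℝ) (2 / 7)) : f3 x ∈ Icc (1 / 4 : ℝ) (2 / 7) := by
  obtain ⟨h1, h2⟩ := hx
  unfold f3
  constructor
  · rw [le_div_iff₀ (by linarith)]; linarith
  · rw [div_le_iff₀ (by linarith)]; linarith

lemma F_mem (l : List Bool) {x : ℝ} (hx : x ∈ Icc (1 / 4 : ℝ) (2 / 7)) :
    F l x ∈ Icc (1 / 4 : ℝ) (2 / 7) := by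
  induction l with
  | nil => exact hx
  | cons b l ih =>
    cases b
    · exact f3_mem ih
    · exact f4_mem ih

lemma f4_lip {x y : ℝ} (hx : x ∈ Icc (1 / 4 : ℝ) (2 / 7)) (hy : y ∈ Icc (1 / 4 : ℝ) (2 / 7)) :
    |f4 x - f4 y| ≤ |x - y| / 13 := by
  obtain ⟨h1, h2⟩ := hx
  obtain ⟨h3, h4⟩ := hy
  rw [f4_sub x y (by linarith) (by linarith), abs_div]
  apply div_le_div_of_nonneg_left (abs_nonneg _) (by norm_num)
  rw [abs_of_pos (by nlinarith)]
  nlinarith

lemma f3_lip {x y : ℝ} (hx : x ∈ Icc (1 / 4 : ℝ) (2 / 7)) (hy : y ∈ Icc (1 / 4 : ℝ) (2 / 7)) :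
    |f3 x - f3 y| ≤ |x - y| / 13 := by
  obtain ⟨h1, h2⟩ := hx
  obtain ⟨h3, h4⟩ := hy
  rw [f3_sub x y (by linarith) (by linarith), abs_neg, abs_div]
  apply div_le_div_of_nonneg_left (abs_nonneg _) (by norm_num)
  rw [abs_of_pos (by nlinarith)]
  nlinarith

lemma F_lip (l : List Bool) {x y : ℝ} (hx : x ∈ Icc (1 / 4 : ℝ) (2 / 7))
    (hy : y ∈ Icc (1 / 4 : ℝ) (2 / 7)) : |F l x - F l y| ≤ |x - y| / 13 ^ l.length := by
  induction l with
  | nil => simp [F]
  | cons b l ih =>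
    have : |F (b :: l) x - F (b :: l) y| ≤ |F l x - F l y| / 13 := by
      cases b
      · exact f3_lip (F_mem l hx) (F_mem l hy)
      · exact f4_lip (F_mem l hx) (F_mem l hy)
    refine this.trans ?_
    rw [List.length_cons, pow_succ, ← div_div]
    gcongr

/-- orbit segments of `S` are inverted by words -/
lemma S_word {a : ℝ} {w : ℝ} (n m : ℕ)
    (h : ∀ k, (S a)^[k] w ∈ Ioo (1 / 4 : ℝ) (2 / 7)) :
    ∃ l : List Bool, l.length = m ∧ (S a)^[n] w = F l ((S a)^[n + m] w) := by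
  induction m generalizing n with
  | zero => exact ⟨[], rfl, rfl⟩
  | succ m ih =>
    obtain ⟨l, hl, hl'⟩ := ih (n + 1)
    have hn := h n
    rw [show n + 1 + m = n + (m + 1) by ring] at hl'
    rw [Function.iterate_succ_apply'] at hl'
    set z := (S a)^[n] w
    by_cases h4 : G4 z ≤ a
    · refine ⟨true :: l, by simp [hl], ?_⟩
      rw [S, if_pos h4] at hl'
      rw [F, ← hl', f4_G4 (by linarith [hn.1])]
    · refine ⟨false :: l, by simp [hl], ?_⟩
      rw [S, if_neg h4] at hl'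
      rw [F, ← hl', f3_G3 (by linarith [hn.2])]

/-- the limit set -/
def K : Set ℝ := {a | ∀ n : ℕ, ∃ l : List Bool, l.length = n ∧ a ∈ F l '' Icc (1 / 4) (2 / 7)}


lemma F_diam (l : List Bool) :
    Metric.ediam (F l '' Icc (1 / 4) (2 / 7)) ≤ (8⁻¹ : ℝ≥0∞) ^ l.length := by
  apply Metric.ediam_le
  rintro _ ⟨x, hx, rfl⟩ _ ⟨y, hy, rfl⟩
  have h1 := F_lip l hx hy
  have h2 : |x - y| ≤ 1 := by
    rw [abs_le]
    obtain ⟨h1, h2⟩ := hx
    obtain ⟨h3, h4⟩ := hy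
    constructor <;> linarith
  have h3 : |F l x - F l y| ≤ (8⁻¹ : ℝ) ^ l.length := by
    refine h1.trans ?_
    rw [inv_pow, div_eq_mul_inv]
    have h13 : ((13 : ℝ) ^ l.length)⁻¹ ≤ (8 ^ l.length)⁻¹ := by
      apply inv_anti₀ (by positivity)
      gcongr
      norm_num
    have : (0 : ℝ) ≤ ((13 : ℝ) ^ l.length)⁻¹ := by positivity
    nlinarith [abs_nonneg (x - y)]
  rw [edist_dist, Real.dist_eq]
  refine (ENNReal.ofReal_le_ofReal h3).trans (le_of_eq ?_)
  rw [ENNReal.ofReal_pow (by norm_num), ENNReal.ofReal_inv_of_pos (by norm_num)]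
  norm_num

lemma dimH_K : dimH K ≤ ((1 / 3 : ℝ≥0) : ℝ≥0∞) := by
  apply dimH_le_of_hausdorffMeasure_ne_top
  have h := MeasureTheory.Measure.hausdorffMeasure_le_liminf_sum
    (ι := fun n : ℕ => List.Vector Bool n) (((1 / 3 : ℝ≥0) : ℝ)) K (l := atTop)
    (fun n => (8⁻¹ : ℝ≥0∞) ^ n)
    (ENNReal.tendsto_pow_atTop_nhds_zero_of_lt_one (by
      rw [ENNReal.inv_lt_one]; norm_num))
    (fun n v => F v.toList '' Icc (1 / 4) (2 / 7))
    (Eventually.of_forall fun n v => by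
      have := F_diam v.toList
      rwa [v.toList_length] at this)
    (Eventually.of_forall fun n => by
      intro a ha
      obtain ⟨l, hl, hal⟩ := ha n
      exact mem_iUnion.2 ⟨⟨l, hl⟩, hal⟩)
  refine ne_top_of_le_ne_top ENNReal.one_ne_top (h.trans ?_)
  calc _ ≤ liminf (fun _ : ℕ => (1 : ℝ≥0∞)) atTop := by
        apply liminf_le_liminf (Eventually.of_forall fun n => ?_)
        have h3 : ((8⁻¹ : ℝ≥0∞) ^ n) ^ (((1 / 3 : ℝ≥0) : ℝ)) = (2⁻¹) ^ n := by
          have h8 : (8⁻¹ : ℝ≥0∞) = (2⁻¹) ^ 3 := by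
            rw [← ENNReal.inv_pow]; norm_num
          rw [h8, ← pow_mul, ← ENNReal.rpow_natCast, ← ENNReal.rpow_mul, ← ENNReal.rpow_natCast]
          congr 1
          push_cast
          ring
        calc ∑ v : List.Vector Bool n,
              Metric.ediam (F v.toList '' Icc (1 / 4) (2 / 7)) ^ (((1 / 3 : ℝ≥0) : ℝ))
            ≤ ∑ v : List.Vector Bool n, (2⁻¹ : ℝ≥0∞) ^ n := by
              apply Finset.sum_le_sum
              intro v _
              rw [← h3]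
              apply ENNReal.rpow_le_rpow _ (by positivity)
              have := F_diam v.toList
              rwa [v.toList_length] at this
          _ = 1 := by
              rw [Finset.sum_const, Finset.card_univ, card_vector, Fintype.card_bool,
                nsmul_eq_mul]
              push_cast
              rw [← mul_pow, ENNReal.mul_inv_cancel (by norm_num) (by norm_num), one_pow]
          _ ≤ 1 := le_rfl
    _ = 1 := by simp

lemma mem_K {α : ℝ} (hα : α ∈ bifSet) (h1 : p < 1 - α) (h2 : 1 - α < t) : 1 - α ∈ K := by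
  have b1 := p_lb
  have b2 := p_ub
  have b3 := t_lb
  have b4 := t_ub
  have ho := orbit_mem hα h1 h2
  have ho' : ∀ k, (S (1 - α))^[k] (1 - α) ∈ Ioo (1 / 4 : ℝ) (2 / 7) := fun k =>
    ⟨by linarith [(ho k).1], by linarith [(ho k).2]⟩
  intro n
  obtain ⟨l, hl, hl'⟩ := S_word 0 n ho'
  refine ⟨l, hl, _, ?_, hl'.symm⟩
  exact ⟨(ho' (0 + n)).1.le, (ho' (0 + n)).2.le⟩

/-! ### Parameters with aperiodic non-exiting orbits belong to `bifSet` -/

lemma G4_of_G3 {α w : ℝ} (h1 : 7 / 10 < α) (h2 : α < 3 / 4) (hw1 : 1 / 4 < w) (hw2 : w < 2 / 7)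
    (h3 : G3 w ≤ 1 - α) : 1 - α < G4 w := by
  obtain ⟨hy1, hy2⟩ := y_bounds hw1 hw2
  rw [G3_eq hw1 hw2] at h3
  unfold G4
  set y := 1 / w - 3
  have hy0 : 0 < y := by linarith
  have h4 : 1 + α ≤ 1 / y := by linarith
  rw [le_div_iff₀ hy0] at h4
  have h5 : y < α := by nlinarith
  have h6 : 1 / w = y + 3 := by simp [y]
  rw [h6]; linarith

section adm

variable {α : ℝ} (h1 : 7 / 10 < α) (h2 : α < 3 / 4)
  (hw : ∀ k, (S (1 - α))^[k] (1 - α) ∈ Ioo (1 / 4 : ℝ) (2 / 7))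
  (hle : ∀ k, (S (1 - α))^[k] (1 - α) ≤ 1 - α)

include h1 h2 hw hle in
lemma St_next {b : Bool} {i n : ℕ} (h : St α b i ((S (1 - α))^[n] (1 - α))) :
    (St α (!b) (i + 1) ((S (1 - α))^[n + 1] (1 - α))) ∨
    (St α (!b) (i + 2) ((S (1 - α))^[n + 1] (1 - α)) ∧ 0 < u α (i + 1) ∧ 0 < v α (i + 1)) := by
  have hle' := hle (n + 1)
  rw [Function.iterate_succ_apply'] at hle' ⊢
  obtain ⟨hw1, hw2⟩ := hw n
  set w := (S (1 - α))^[n] (1 - α)
  by_cases h4 : G4 w ≤ 1 - α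
  · left
    rw [S, if_pos h4]
    exact St_step4 h1 h2 hw1 hw2 h h4
  · right
    rw [S, if_neg h4] at hle' ⊢
    exact St_step3 h1 h2 hw1 hw2 h (not_le.1 h4) hle'

/-- parity flag of the step number -/
def par (n : ℕ) : Bool := n.bodd.not

lemma par_succ (n : ℕ) : par (n + 1) = !(par n) := by simp [par]

include h1 h2 hw hle in
lemma exists_time (n : ℕ) : ∃ i, n ≤ i ∧ St α (par n) i ((S (1 - α))^[n] (1 - α)) := by
  induction n with
  | zero => exact ⟨0, le_rfl, St_zero h1 h2⟩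
  | succ n ih =>
    obtain ⟨i, hi, hst⟩ := ih
    rw [par_succ]
    rcases St_next h1 h2 hw hle hst with h | h
    · exact ⟨i + 1, by omega, h⟩
    · exact ⟨i + 2, by omega, h.1⟩

include h1 h2 hw hle in
lemma cover_time (s : ℕ) : ∃ n, St α (par n) s ((S (1 - α))^[n] (1 - α)) ∨
    (St α (par n) (s + 1) ((S (1 - α))^[n] (1 - α)) ∧ 0 < u α s ∧ 0 < v α s) := by
  induction s with
  | zero => exact ⟨0, Or.inl (St_zero h1 h2)⟩
  | succ s ih =>
    obtain ⟨n, h | h⟩ := ih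
    · refine ⟨n + 1, ?_⟩
      rw [par_succ]
      rcases St_next h1 h2 hw hle h with h | h
      · exact Or.inl h
      · exact Or.inr h
    · exact ⟨n, Or.inl h.1⟩

include h1 h2 hw hle in
lemma mem_bifSet (hap : ∀ n m : ℕ, par n = true → par m = false →
    (S (1 - α))^[n] (1 - α) ≠ (S (1 - α))^[m] (1 - α)) : α ∈ bifSet := by
  apply mem_bif ⟨by linarith, by linarith⟩
  intro M N hMN
  -- go to a late even step
  obtain ⟨i, hi, hst⟩ := exists_time h1 h2 hw hle (2 * (M + 1))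
  have hpar : par (2 * (M + 1)) = true := by simp [par]
  have hst0 := hst
  rw [hpar] at hst
  have hu : u α i = -((S (1 - α))^[2 * (M + 1)] (1 - α)) := hst.1
  have hiM : i = (i - M) + M := by omega
  have hNe : (T α)^[(i - M) + M] (α - 1) = (T α)^[(i - M) + N] α := by
    rw [Function.iterate_add_apply, hMN, ← Function.iterate_add_apply]
  obtain ⟨s, hs⟩ : ∃ s, (i - M) + N = s + 1 := ⟨(i - M) + N - 1, by omega⟩
  rw [← hiM, hs] at hNe
  change u α i = v α s at hNe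
  have hneg : v α s < 0 := by
    rw [← hNe, hu]; linarith [(hw (2 * (M + 1))).1]
  obtain ⟨m, h | h⟩ := cover_time h1 h2 hw hle s
  · cases hm : par m with
    | true =>
      rw [hm] at h
      obtain ⟨hw1, hw2⟩ := hw m
      rcases h.2 with h' | h'
      · rw [h'] at hneg; linarith
      · rw [h'] at hneg
        have : 0 < (S (1 - α))^[m] (1 - α) / (1 - (S (1 - α))^[m] (1 - α)) :=
          div_pos (by linarith) (by linarith)
        linarith
    | false =>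
      rw [hm] at h
      have hv : v α s = -((S (1 - α))^[m] (1 - α)) := h.1
      refine hap _ _ hpar hm ?_
      rw [hu, hv] at hNe
      linarith
  · linarith [h.2.2]

end adm


/-! ### A Cantor set of admissible parameters -/

/-- the two contractions -/
noncomputable def g (i : Fin 2) (x : ℝ) : ℝ := if i = 0 then f3 x else f4 (f3 x)

/-- the interval preserved by the two contractions -/
def IC : Set ℝ := Icc 0.2687 0.27952

lemma IC_sub {x : ℝ} (hx : x ∈ IC) : x ∈ Icc (1 / 4 : ℝ) (2 / 7) := by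
  obtain ⟨h1, h2⟩ := hx
  norm_num at h1 h2
  constructor <;> linarith

lemma f3_IC {x : ℝ} (hx : x ∈ IC) : f3 x ∈ Icc (0.27923 : ℝ) 0.27952 := by
  obtain ⟨h1, h2⟩ := hx
  norm_num at h1 h2
  unfold f3
  constructor
  · rw [le_div_iff₀ (by linarith)]; norm_num; linarith
  · rw [div_le_iff₀ (by linarith)]; norm_num; linarith

lemma f4_IC {x : ℝ} (hx : x ∈ Icc (0.27923 : ℝ) 0.27952) : f4 x ∈ Icc (0.26876 : ℝ) 0.26879 := by
  obtain ⟨h1, h2⟩ := hx
  norm_num at h1 h2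
  unfold f4
  constructor
  · rw [le_div_iff₀ (by linarith)]; norm_num; linarith
  · rw [div_le_iff₀ (by linarith)]; norm_num; linarith

lemma g_mem (i : Fin 2) {x : ℝ} (hx : x ∈ IC) : g i x ∈ IC := by
  unfold g
  have h3 := f3_IC hx
  split_ifs
  · exact ⟨by have := h3.1; norm_num at this ⊢; linarith, h3.2⟩
  · have h4 := f4_IC h3
    exact ⟨by have := h4.1; norm_num at this ⊢; linarith,
      by have := h4.2; norm_num at this ⊢; linarith⟩

lemma f4_lower {x y : ℝ} (hx : x ∈ Icc (1 / 4 : ℝ) (2 / 7)) (hy : y ∈ Icc (1 / 4 : ℝ) (2 / 7)) :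
    |x - y| / 16 ≤ |f4 x - f4 y| := by
  obtain ⟨h1, h2⟩ := hx
  obtain ⟨h3, h4⟩ := hy
  rw [f4_sub x y (by linarith) (by linarith), abs_div]
  have h5 : 0 < (4 - x) * (4 - y) := mul_pos (by linarith) (by linarith)
  rw [abs_of_pos h5]
  apply div_le_div_of_nonneg_left (abs_nonneg _) h5
  nlinarith

lemma f3_lower {x y : ℝ} (hx : x ∈ Icc (1 / 4 : ℝ) (2 / 7)) (hy : y ∈ Icc (1 / 4 : ℝ) (2 / 7)) :
    |x - y| / 49 ≤ |f3 x - f3 y| := by
  obtain ⟨h1, h2⟩ := hx
  obtain ⟨h3, h4⟩ := hy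
  rw [f3_sub x y (by linarith) (by linarith), abs_neg, abs_div]
  have h5 : 0 < (7 - 3 * x) * (7 - 3 * y) := mul_pos (by linarith) (by linarith)
  rw [abs_of_pos h5]
  apply div_le_div_of_nonneg_left (abs_nonneg _) h5
  nlinarith

lemma g_lip (i : Fin 2) {x y : ℝ} (hx : x ∈ Icc (1 / 4 : ℝ) (2 / 7))
    (hy : y ∈ Icc (1 / 4 : ℝ) (2 / 7)) : |g i x - g i y| ≤ |x - y| / 13 := by
  unfold g
  have h3 := f3_lip hx hy
  split_ifs
  · exact h3
  · have h4 := f4_lip (f3_mem hx) (f3_mem hy)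
    have := abs_nonneg (x - y)
    linarith

lemma g_lower (i : Fin 2) {x y : ℝ} (hx : x ∈ Icc (1 / 4 : ℝ) (2 / 7))
    (hy : y ∈ Icc (1 / 4 : ℝ) (2 / 7)) : |x - y| / 1024 ≤ |g i x - g i y| := by
  unfold g
  have h3 := f3_lower hx hy
  have := abs_nonneg (x - y)
  split_ifs
  · linarith
  · have h4 := f4_lower (f3_mem hx) (f3_mem hy)
    linarith

/-- shift -/
def sh (ω : ℕ → Fin 2) : ℕ → Fin 2 := fun k => ω (k + 1)

/-- finite approximations of the coding map -/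
noncomputable def z : ℕ → (ℕ → Fin 2) → ℝ
  | 0, _ => 0.27
  | n + 1, ω => g (ω 0) (z n (sh ω))

lemma z_mem (n : ℕ) (ω : ℕ → Fin 2) : z n ω ∈ IC := by
  induction n generalizing ω with
  | zero => rw [z]; constructor <;> norm_num
  | succ n ih => exact g_mem _ (ih _)

lemma z_dist (n : ℕ) (ω : ℕ → Fin 2) : dist (z n ω) (z (n + 1) ω) ≤ 1 * (1 / 13) ^ n := by
  induction n generalizing ω with
  | zero =>
    have h1 := IC_sub (z_mem 0 ω)
    have h2 := IC_sub (z_mem 1 ω)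
    rw [Real.dist_eq, abs_le]
    constructor <;> norm_num <;> linarith [h1.1, h1.2, h2.1, h2.2]
  | succ n ih =>
    have := g_lip (ω 0) (IC_sub (z_mem n (sh ω))) (IC_sub (z_mem (n + 1) (sh ω)))
    have h2 := ih (sh ω)
    rw [Real.dist_eq] at h2
    rw [Real.dist_eq, pow_succ]
    calc |z (n + 1) ω - z (n + 1 + 1) ω| ≤ |z n (sh ω) - z (n + 1) (sh ω)| / 13 := this
      _ ≤ _ := by linarith

lemma exists_lim (ω : ℕ → Fin 2) : ∃ x, Tendsto (fun n => z n ω) atTop (𝓝 x) :=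
  cauchySeq_tendsto_of_complete
    (cauchySeq_of_le_geometric (1 / 13) 1 (by norm_num) fun n => z_dist n ω)

/-- the coding map -/
noncomputable def cod (ω : ℕ → Fin 2) : ℝ := (exists_lim ω).choose

lemma cod_spec (ω : ℕ → Fin 2) : Tendsto (fun n => z n ω) atTop (𝓝 (cod ω)) :=
  (exists_lim ω).choose_spec

lemma cod_mem (ω : ℕ → Fin 2) : cod ω ∈ IC :=
  isClosed_Icc.mem_of_tendsto (cod_spec ω) (Eventually.of_forall fun n => z_mem n ω)

lemma continuousAt_g (i : Fin 2) {x : ℝ} (hx : x ∈ IC) : ContinuousAt (g i) x := by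
  have hx' := IC_sub hx
  have h3 : ContinuousAt f3 x := by
    unfold f3
    have : 7 - 3 * x ≠ 0 := by
      have : 0 < 7 - 3 * x := by linarith [hx'.2]
      exact this.ne'
    fun_prop (disch := assumption)
  by_cases hi : i = 0
  · have : g i = f3 := by ext y; simp [g, hi]
    rwa [this]
  · have : g i = f4 ∘ f3 := by ext y; simp [g, hi]
    rw [this]
    refine ContinuousAt.comp ?_ h3
    unfold f4
    have : 4 - f3 x ≠ 0 := by
      have : 0 < 4 - f3 x := by linarith [(f3_mem hx').2]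
      exact this.ne'
    fun_prop (disch := assumption)

lemma cod_eq (ω : ℕ → Fin 2) : cod ω = g (ω 0) (cod (sh ω)) := by
  have h1 : Tendsto (fun n => z (n + 1) ω) atTop (𝓝 (cod ω)) :=
    (cod_spec ω).comp (tendsto_add_atTop_nat 1)
  have h2 : Tendsto (fun n => g (ω 0) (z n (sh ω))) atTop (𝓝 (g (ω 0) (cod (sh ω)))) :=
    (continuousAt_g (ω 0) (cod_mem (sh ω))).tendsto.comp (cod_spec (sh ω))
  exact tendsto_nhds_unique h1 h2

lemma cod_sep (n : ℕ) (ω ω' : ℕ → Fin 2) (h : ∀ i < n, ω i = ω' i) (hn : ω n ≠ ω' n) :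
    (1 / 1024) ^ n / 100 ≤ |cod ω - cod ω'| := by
  induction n generalizing ω ω' with
  | zero =>
    rw [cod_eq ω, cod_eq ω']
    have h1 := f3_IC (cod_mem (sh ω))
    have h2 := f3_IC (cod_mem (sh ω'))
    have h3 := f4_IC h1
    have h4 := f4_IC h2
    norm_num at h1 h2 h3 h4
    unfold g
    split_ifs with h5 h6 h6
    · exact absurd (h5.trans h6.symm) hn
    · rw [abs_of_pos (by linarith)]
      norm_num
      linarith
    · rw [abs_of_neg (by linarith)]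
      norm_num
      linarith
    · exfalso; apply hn; omega
  | succ n ih =>
    have ih' := ih (sh ω) (sh ω') (fun i hi => h (i + 1) (by omega)) hn
    have := g_lower (ω 0) (IC_sub (cod_mem (sh ω))) (IC_sub (cod_mem (sh ω')))
    rw [cod_eq ω, cod_eq ω', ← h 0 (by omega), pow_succ]
    refine le_trans ?_ this
    linarith

/-- the parameters -/
noncomputable def par3 (ω : ℕ → Fin 2) : ℝ := 1 - f3 (f4 (f4 (cod ω)))

lemma par3_sep (n : ℕ) (ω ω' : ℕ → Fin 2) (h : ∀ i < n, ω i = ω' i) (hn : ω n ≠ ω' n) :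
    (1 / 1024) ^ n / 10 ^ 7 ≤ |par3 ω - par3 ω'| := by
  have h0 := cod_sep n ω ω' h hn
  have m1 := IC_sub (cod_mem ω)
  have m2 := IC_sub (cod_mem ω')
  have h1 := f4_lower m1 m2
  have h2 := f4_lower (f4_mem m1) (f4_mem m2)
  have h3 := f3_lower (f4_mem (f4_mem m1)) (f4_mem (f4_mem m2))
  have h4 : |par3 ω - par3 ω'| = |f3 (f4 (f4 (cod ω))) - f3 (f4 (f4 (cod ω')))| := by
    rw [abs_sub_comm]; unfold par3; congr 1; ring
  rw [h4]
  have : (0 : ℝ) ≤ (1 / 1024) ^ n := by positivity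
  linarith

lemma par3_inj {ω ω' : ℕ → Fin 2} (h : par3 ω = par3 ω') : ω = ω' := by
  classical
  by_contra hne
  have hex : ∃ n, ω n ≠ ω' n := by
    by_contra hc
    push Not at hc
    exact hne (funext hc)
  have := par3_sep (Nat.find hex) ω ω' (fun i hi => by
    have := Nat.find_min hex hi
    push Not at this; exact this) (Nat.find_spec hex)
  rw [h, sub_self, abs_zero] at this
  have h2 : (0 : ℝ) < (1 / 1024) ^ (Nat.find hex) / 10 ^ 7 := by positivity
  linarith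

/-- decoding map -/
noncomputable def dec (α : ℝ) : ℝ :=
  Real.ofDigits (Function.invFun par3 α)

lemma dec_par3 (ω : ℕ → Fin 2) : dec (par3 ω) = Real.ofDigits ω := by
  unfold dec
  congr 1
  exact Function.leftInverse_invFun (fun _ _ h => par3_inj h) ω

lemma dec_holder : HolderOnWith 10 (1 / 10) dec (range par3) := by
  classical
  rintro _ ⟨ω, rfl⟩ _ ⟨ω', rfl⟩
  rw [dec_par3, dec_par3]
  by_cases hne : ω = ω'
  · subst hne; simp
  have hex : ∃ n, ω n ≠ ω' n := by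
    by_contra hc
    push Not at hc
    exact hne (funext hc)
  set n := Nat.find hex with hn
  have hlt : ∀ i < n, ω i = ω' i := fun i hi => by
    have := Nat.find_min hex hi
    push Not at this; exact this
  have h1 := par3_sep n ω ω' hlt (Nat.find_spec hex)
  have h2 := Real.abs_ofDigits_sub_ofDigits_le (b := 2) hlt
  rw [edist_dist, edist_dist, Real.dist_eq, Real.dist_eq]
  have h3 : |Real.ofDigits ω - Real.ofDigits ω'| ≤ 10 * |par3 ω - par3 ω'| ^ ((1 : ℝ) / 10) := by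
    have h4 : ((1 / 2 : ℝ) ^ n / 10) ^ 10 ≤ |par3 ω - par3 ω'| := by
      refine le_trans ?_ h1
      rw [div_pow, ← pow_mul, mul_comm n 10, pow_mul]
      norm_num
      have : (0 : ℝ) ≤ (1 / 1024) ^ n := by positivity
      linarith
    have h5 : (1 / 2 : ℝ) ^ n / 10 ≤ |par3 ω - par3 ω'| ^ ((1 : ℝ) / 10) := by
      have h6 := Real.rpow_le_rpow (by positivity) h4 (show (0 : ℝ) ≤ 1 / 10 by norm_num)
      have h7 : (((1 / 2 : ℝ) ^ n / 10) ^ 10) ^ ((1 : ℝ) / 10) = (1 / 2 : ℝ) ^ n / 10 := by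
        rw [← Real.rpow_natCast, ← Real.rpow_mul (by positivity)]
        norm_num
      rwa [h7] at h6
    have h8 : (((2 : ℕ) : ℝ) ^ n)⁻¹ = (1 / 2) ^ n := by
      push_cast; rw [one_div, inv_pow]
    rw [h8] at h2
    linarith
  refine (ENNReal.ofReal_le_ofReal h3).trans (le_of_eq ?_)
  rw [ENNReal.ofReal_mul (by norm_num), ENNReal.ofReal_rpow_of_nonneg (abs_nonneg _) (by norm_num)]
  norm_num

lemma Ico_sub : Ico (0 : ℝ) 1 ⊆ dec '' range par3 := by
  intro x hx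
  exact ⟨par3 (Real.digits x 2), ⟨_, rfl⟩, by rw [dec_par3, Real.ofDigits_digits (by norm_num) hx]⟩

lemma dimH_range : (1 / 10 : ℝ≥0∞) ≤ dimH (range par3) := by
  have h1 := dec_holder.dimH_image_le (by norm_num)
  have h2 : dimH (Ico (0 : ℝ) 1) = 1 := by
    rw [Real.dimH_of_nonempty_interior, Module.finrank_self, Nat.cast_one]
    rw [interior_Ico]
    exact ⟨1 / 2, by norm_num, by norm_num⟩
  have h3 := (dimH_mono Ico_sub).trans h1
  rw [h2] at h3
  rw [ENNReal.le_div_iff_mul_le (by simp) (by simp)] at h3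
  refine le_trans (le_of_eq ?_) h3
  norm_num


lemma S_f3 {a x : ℝ} (ha1 : 1 / 4 < a) (ha2 : a < 2 / 7) (h1 : 1 / 4 < f3 x)
    (h2 : f3 x < 2 / 7) (hx : x ≤ a) : S a (f3 x) = x := by
  have h3 : G3 (f3 x) = x := G3_f3 (by linarith)
  have h4 := G4_of_G3 (α := 1 - a) (by linarith) (by linarith) h1 h2 (by rw [h3]; linarith)
  rw [S, if_neg (by linarith), h3]

lemma S_f4 {a x : ℝ} (ha2 : a < 2 / 7) (hx : x ≤ a) : S a (f4 x) = x := by
  have h3 : G4 (f4 x) = x := G4_f4 (by linarith)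
  rw [S, if_pos (by rw [h3]; exact hx), h3]

lemma f4_p : f4 p = p := by
  unfold f4
  have h1 := p_lb
  have h2 := p_ub
  rw [div_eq_iff (by linarith)]
  nlinarith [p_sq]

lemma par3_bounds (ω : ℕ → Fin 2) :
    0.27953 < 1 - par3 ω ∧ 1 - par3 ω < t ∧ f4 (cod ω) ∈ Ioo (0.26 : ℝ) 0.27 ∧
      f4 (f4 (cod ω)) ∈ Ioo (0.26 : ℝ) 0.27 := by
  have hc := cod_mem ω
  obtain ⟨h1, h2⟩ := hc
  norm_num at h1 h2
  have b1 := p_lb
  have b2 := p_ub
  have h3 : p < cod ω := by linarith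
  have h4 : p < f4 (cod ω) := by
    have := f4_strictMono h3 (by linarith)
    rwa [f4_p] at this
  have h5 : f4 (cod ω) ≤ 0.2688 := by
    unfold f4
    rw [div_le_iff₀ (by linarith)]; norm_num; linarith
  have h6 : p < f4 (f4 (cod ω)) := by
    have := f4_strictMono h4 (by norm_num at h5 ⊢; linarith)
    rwa [f4_p] at this
  have h7 : f4 (f4 (cod ω)) ≤ 0.268011 := by
    norm_num at h5 ⊢
    rw [f4, div_le_iff₀ (by linarith)]; linarith
  have h8 : f3 (f4 (f4 (cod ω))) < t :=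
    f3_strictAnti h6 (by norm_num at h7 ⊢; linarith)
  have h9 : 1 - par3 ω = f3 (f4 (f4 (cod ω))) := by unfold par3; ring
  rw [h9]
  refine ⟨?_, h8, ⟨?_, ?_⟩, ⟨?_, ?_⟩⟩
  · norm_num at h7 ⊢
    rw [f3, lt_div_iff₀ (by linarith)]; linarith
  · norm_num at b1 ⊢; linarith
  · norm_num at h5 ⊢; linarith
  · norm_num at b1 ⊢; linarith
  · norm_num at h7 ⊢; linarith

/-- values met by the orbit -/
def Vals (ω : ℕ → Fin 2) (x : ℝ) : Prop :=
  x = 1 - par3 ω ∨ x = f4 (f4 (cod ω)) ∨ x = f4 (cod ω) ∨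
    ∃ ω' : ℕ → Fin 2, x = cod ω' ∨ x = f3 (cod ω')

lemma Vals_bounds {ω : ℕ → Fin 2} {x : ℝ} (h : Vals ω x) :
    x ∈ Ioo (1 / 4 : ℝ) (2 / 7) ∧ x ≤ 1 - par3 ω := by
  obtain ⟨h1, h2, h3, h4⟩ := par3_bounds ω
  have b := t_ub
  norm_num at h1 h2 h3 h4 b
  rcases h with rfl | rfl | rfl | ⟨ω', rfl | rfl⟩
  · exact ⟨⟨by linarith, by linarith⟩, le_rfl⟩
  · exact ⟨⟨by linarith, by linarith⟩, by linarith⟩
  · exact ⟨⟨by linarith, by linarith⟩, by linarith⟩
  · have hc := cod_mem ω'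
    obtain ⟨h5, h6⟩ := hc
    norm_num at h5 h6
    exact ⟨⟨by linarith, by linarith⟩, by linarith⟩
  · have hc := f3_IC (cod_mem ω')
    obtain ⟨h5, h6⟩ := hc
    norm_num at h5 h6
    exact ⟨⟨by linarith, by linarith⟩, by linarith⟩

lemma Vals_S {ω : ℕ → Fin 2} {x : ℝ} (h : Vals ω x) : Vals ω (S (1 - par3 ω) x) := by
  have ha := (Vals_bounds (Or.inl rfl : Vals ω (1 - par3 ω))).1
  have key3 : ∀ x, Vals ω (f3 x) → x ≤ 1 - par3 ω → S (1 - par3 ω) (f3 x) = x := by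
    intro x hx hxa
    have := (Vals_bounds hx).1
    exact S_f3 ha.1 ha.2 this.1 this.2 hxa
  have key4 : ∀ x, x ≤ 1 - par3 ω → S (1 - par3 ω) (f4 x) = x := fun x hx => S_f4 ha.2 hx
  have hcod : ∀ ω' : ℕ → Fin 2, Vals ω (cod ω') := fun ω' =>
    Or.inr (Or.inr (Or.inr ⟨ω', Or.inl rfl⟩))
  have hcod3 : ∀ ω' : ℕ → Fin 2, Vals ω (f3 (cod ω')) := fun ω' =>
    Or.inr (Or.inr (Or.inr ⟨ω', Or.inr rfl⟩))
  have hv1 : Vals ω (f4 (f4 (cod ω))) := Or.inr (Or.inl rfl)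
  have hv2 : Vals ω (f4 (cod ω)) := Or.inr (Or.inr (Or.inl rfl))
  rcases h with rfl | rfl | rfl | ⟨ω', rfl | rfl⟩
  · have h9 : 1 - par3 ω = f3 (f4 (f4 (cod ω))) := by unfold par3; ring
    have h10 : Vals ω (f3 (f4 (f4 (cod ω)))) := by rw [← h9]; exact Or.inl rfl
    have h11 := key3 _ h10 (Vals_bounds hv1).2
    rw [← h9] at h11
    rw [h11]; exact hv1
  · rw [key4 _ (Vals_bounds hv2).2]; exact hv2
  · rw [key4 _ (Vals_bounds (hcod ω)).2]; exact hcod ω
  · have h0 := cod_eq ω'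
    unfold g at h0
    split_ifs at h0 with hi
    · rw [h0, key3 _ (hcod3 _) (Vals_bounds (hcod _)).2]
      exact hcod _
    · rw [h0, key4 _ (Vals_bounds (hcod3 _)).2]
      exact hcod3 _
  · rw [key3 _ (hcod3 _) (Vals_bounds (hcod _)).2]
    exact hcod _

lemma Vals_iter (ω : ℕ → Fin 2) (k : ℕ) :
    Vals ω ((S (1 - par3 ω))^[k] (1 - par3 ω)) := by
  induction k with
  | zero => exact Or.inl rfl
  | succ k ih =>
    rw [Function.iterate_succ_apply']
    exact Vals_S ih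

/-- the exceptional parameters -/
def Bad : Set ℝ := {α | ∃ u s : List Bool, s ≠ [] ∧
  ∃ x ∈ Icc (1 / 4 : ℝ) (2 / 7), F s x = x ∧ α = 1 - F u x}

lemma Bad_countable : Bad.Countable := by
  have : Bad ⊆ ⋃ (q : List Bool × List Bool), {α | q.2 ≠ [] ∧
      ∃ x ∈ Icc (1 / 4 : ℝ) (2 / 7), F q.2 x = x ∧ α = 1 - F q.1 x} := by
    rintro α ⟨u, s, hs, x, hx⟩
    exact mem_iUnion.2 ⟨(u, s), hs, x, hx⟩
  refine Countable.mono this (countable_iUnion fun q => ?_)
  apply Set.Subsingleton.countable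
  rintro α ⟨hs, x, hx, hfx, rfl⟩ β ⟨-, y, hy, hfy, rfl⟩
  have h1 := F_lip q.2 hx hy
  rw [hfx, hfy] at h1
  have hlen : 1 ≤ q.2.length := by
    rcases h : q.2 with _ | ⟨a, l⟩
    · exact absurd h hs
    · simp
  have h13 : (13 : ℝ) ≤ 13 ^ q.2.length := by
    calc (13 : ℝ) = 13 ^ 1 := by norm_num
      _ ≤ 13 ^ q.2.length := pow_le_pow_right₀ (by norm_num) hlen
  have h2 : |x - y| / 13 ^ q.2.length ≤ |x - y| / 13 := by
    gcongr
  have h3 : |x - y| = 0 := by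
    have := abs_nonneg (x - y)
    linarith
  have h4 : x = y := by
    rw [abs_eq_zero] at h3; linarith
  rw [h4]

lemma par3_mem (ω : ℕ → Fin 2) (hb : par3 ω ∉ Bad) : par3 ω ∈ bifSet := by
  obtain ⟨h1, h2, -, -⟩ := par3_bounds ω
  have b := t_ub
  norm_num at h1 b
  have hw : ∀ k, (S (1 - par3 ω))^[k] (1 - par3 ω) ∈ Ioo (1 / 4 : ℝ) (2 / 7) := fun k =>
    (Vals_bounds (Vals_iter ω k)).1
  refine mem_bifSet (by linarith) (by linarith) hw (fun k => (Vals_bounds (Vals_iter ω k)).2) ?_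
  intro n m hn hm heq
  apply hb
  have hnm : n ≠ m := by
    rintro rfl
    rw [hn] at hm; exact absurd hm (by decide)
  have key : ∀ k l, k < l → (S (1 - par3 ω))^[k] (1 - par3 ω) =
      (S (1 - par3 ω))^[l] (1 - par3 ω) → par3 ω ∈ Bad := by
    intro k l hkl hkl'
    obtain ⟨u, -, hu⟩ := S_word 0 k hw
    obtain ⟨s, hs, hs'⟩ := S_word k (l - k) hw
    rw [show k + (l - k) = l by omega, ← hkl'] at hs'
    refine ⟨u, s, ?_, _, ⟨(hw k).1.le, (hw k).2.le⟩, hs'.symm, ?_⟩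
    · rintro rfl
      simp at hs; omega
    · rw [zero_add] at hu
      rw [← hu]
      simp
  rcases lt_or_gt_of_ne hnm with h | h
  · exact key n m h heq
  · exact key m n h heq.symm

/-! ### Conclusion -/

/-- **Main theorem.** There is a non-isolated point of the bifurcation set at which the local
Hausdorff dimension lies strictly between `0` and `1/2`. -/
theorem result : ∃ x ∈ bifSet, ¬ IsIsolated x ∧ ∃ d : ℝ≥0∞, HasLocDim x d ∧ 0 < d ∧ d < 1 / 2 := by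
  have h10 : (1 / 20 : ℝ≥0∞) < dimH (range par3 \ Bad) := by
    have h1 : dimH (range par3) ≤ dimH (range par3 \ Bad) := by
      have : range par3 ⊆ (range par3 \ Bad) ∪ Bad := by
        intro x hx
        by_cases hb : x ∈ Bad
        · exact Or.inr hb
        · exact Or.inl ⟨hx, hb⟩
      refine (dimH_mono this).trans ?_
      rw [dimH_union, dimH_countable Bad_countable]
      simp
    refine lt_of_lt_of_le ?_ (dimH_range.trans h1)
    rw [one_div, one_div, ENNReal.inv_lt_inv]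
    norm_num
  obtain ⟨x, ⟨⟨ω, rfl⟩, hxb⟩, hx⟩ := exists_mem_nhdsWithin_lt_dimH_of_lt_dimH h10
  set x := par3 ω with hxdef
  have hlow : ∀ δ > 0, (1 / 20 : ℝ≥0∞) < dimH (bifSet ∩ Ioo (x - δ) (x + δ)) := by
    intro δ hδ
    have h1 : (range par3 \ Bad) ∩ Ioo (x - δ) (x + δ) ∈ 𝓝[range par3 \ Bad] x :=
      inter_mem self_mem_nhdsWithin
        (mem_nhdsWithin_of_mem_nhds (Ioo_mem_nhds (by linarith) (by linarith)))
    refine (hx _ h1).trans_le (dimH_mono ?_)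
    apply inter_subset_inter_left
    rintro _ ⟨⟨ω', rfl⟩, hb⟩
    exact par3_mem ω' hb
  obtain ⟨b1, b2, -, -⟩ := par3_bounds ω
  have b3 := p_ub
  norm_num at b1 b3
  obtain ⟨δ₀, hδ₀, hδp, hδt⟩ : ∃ δ₀ > 0, p < 1 - x - δ₀ ∧ 1 - x + δ₀ < t := by
    refine ⟨min ((1 - x - p) / 2) ((t - (1 - x)) / 2), ?_, ?_, ?_⟩
    · apply lt_min <;> linarith
    · have := min_le_left ((1 - x - p) / 2) ((t - (1 - x)) / 2)
      linarith
    · have := min_le_right ((1 - x - p) / 2) ((t - (1 - x)) / 2)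
      linarith
  have hup : dimH (bifSet ∩ Ioo (x - δ₀) (x + δ₀)) ≤ ((1 / 3 : ℝ≥0) : ℝ≥0∞) := by
    have h1 : (fun y : ℝ => 1 - y) '' (bifSet ∩ Ioo (x - δ₀) (x + δ₀)) ⊆ K := by
      rintro _ ⟨y, ⟨hy, hy1, hy2⟩, rfl⟩
      exact mem_K hy (by linarith) (by linarith)
    have h2 : Isometry (fun y : ℝ => 1 - y) := by
      apply Isometry.of_dist_eq
      intro a b
      rw [Real.dist_eq, Real.dist_eq, abs_sub_comm]
      congr 1; ring
    rw [← h2.dimH_image]
    exact (dimH_mono h1).trans dimH_K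
  have hmono : Monotone (fun δ : ℝ => dimH (bifSet ∩ Ioo (x - δ) (x + δ))) := by
    intro a b hab
    apply dimH_mono
    apply inter_subset_inter_right
    apply Ioo_subset_Ioo <;> linarith
  refine ⟨x, par3_mem ω hxb, ?_, _, hmono.tendsto_nhdsGT 0, ?_, ?_⟩
  · rintro ⟨δ, hδ, h⟩
    have := hlow δ hδ
    rw [h, dimH_singleton] at this
    exact absurd this (by simp)
  · refine lt_of_lt_of_le ?_ (le_csInf ⟨_, δ₀, hδ₀, rfl⟩
      (?_ : ∀ b ∈ (fun δ : ℝ => dimH (bifSet ∩ Ioo (x - δ) (x + δ))) '' Ioi 0, 1 / 20 ≤ b))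
    · simp
    · rintro _ ⟨δ, hδ, rfl⟩
      exact (hlow δ hδ).le
  · refine lt_of_le_of_lt (csInf_le (OrderBot.bddBelow _) ⟨δ₀, hδ₀, rfl⟩) (lt_of_le_of_lt hup ?_)
    rw [ENNReal.coe_div (by norm_num)]
    push_cast
    rw [one_div, one_div, ENNReal.inv_lt_inv]
    norm_num

end Pool.Agent.Results.MP_821422_an.LocalDimension
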